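import Pool.Agent.J4H22.AS.Base

/-!
# Project AS6: (BR)
-/

set_option autoImplicit false

namespace Pool.Agent.J4H22.AS

open Polynomial Filter Topology Pool.Agent.J4H20.AS

theorem t_BR : S_BR := by
  classical
  intro A c d H κ₀ h1 h2
  obtain ⟨hcard, hne, -, -⟩ := basic H h1 h2
  set Z : Finset ℝ := (derivative (A * (GP - C κ₀))).roots.toFinset with hZ
  have hZz : ∀ z ∈ Z, (derivative (A * (GP - C κ₀))).eval z = 0 := by
    intro z hz
    rw [hZ, Multiset.mem_toFinset, mem_roots hne] at hz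
    exact hz
  let e : Fin Z.card ≃ Z := (Finset.equivFin Z).symm
  have hZr : ∀ i, (derivative (A * (GP - C κ₀))).eval ((e i : Z) : ℝ) = 0 :=
    fun i => hZz _ (e i).2
  choose ξ hξ0 hξc hξe using fun i => loc H h1 h2 (hZr i)
  have hinj : ∀ᶠ κ in 𝓝 κ₀, ∀ i j, i ≠ j → ξ i κ ≠ ξ j κ := by
    rw [eventually_all]; intro i
    rw [eventually_all]; intro j
    by_cases hij : i = j
    · exact Eventually.of_forall fun κ h => absurd hij h
    · have hn : ξ i κ₀ ≠ ξ j κ₀ := by
        rw [hξ0, hξ0]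
        intro h
        exact hij (e.injective (Subtype.ext h))
      have ht : Tendsto (fun κ => ξ i κ - ξ j κ) (𝓝 κ₀) (𝓝 (ξ i κ₀ - ξ j κ₀)) :=
        (hξc i).tendsto.sub (hξc j).tendsto
      filter_upwards [ht.eventually_ne (sub_ne_zero.2 hn)] with κ hκ _
      exact sub_ne_zero.1 hκ
  have hall : ∀ᶠ κ in 𝓝 κ₀, ∀ i, (derivative (A * (GP - C κ))).eval (ξ i κ) = 0 ∧
      DifferentiableAt ℝ (ξ i) κ := by
    rw [eventually_all]; exact hξe
  obtain ⟨l, u, ⟨hl, hu⟩, hlu⟩ := mem_nhds_iff_exists_Ioo_subset.1 (hinj.and hall)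
  refine ⟨max c l, min d u, le_max_left _ _, max_lt h1 hl, lt_min h2 hu, min_le_left _ _,
    Z.card, ξ, ?_, ?_, ?_⟩
  · intro κ k1 k2 x
    obtain ⟨g1, g2⟩ := hlu ⟨lt_of_le_of_lt (le_max_right _ _) k1, lt_of_lt_of_le k2 (min_le_right _ _)⟩
    obtain ⟨hcard', hne', -, -⟩ := basic H (lt_of_le_of_lt (le_max_left _ _) k1)
      (lt_of_lt_of_le k2 (min_le_left _ _))
    have hI : Function.Injective fun i => ξ i κ := by
      intro i j hij
      by_contra h
      exact g1 i j h hij
    have hsub : (Finset.univ.image fun i => ξ i κ) ⊆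
        (derivative (A * (GP - C κ))).roots.toFinset := by
      intro y hy
      obtain ⟨i, -, rfl⟩ := Finset.mem_image.1 hy
      rw [Multiset.mem_toFinset, mem_roots hne']
      exact (g2 i).1
    have heq : (Finset.univ.image fun i => ξ i κ) =
        (derivative (A * (GP - C κ))).roots.toFinset := by
      apply Finset.eq_of_subset_of_card_le hsub
      rw [hcard', Finset.card_image_of_injective _ hI, Finset.card_univ, Fintype.card_fin, hcard]
    constructor
    · intro hx
      have : x ∈ (derivative (A * (GP - C κ))).roots.toFinset := by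
        rw [Multiset.mem_toFinset, mem_roots hne']; exact hx
      rw [← heq] at this
      obtain ⟨i, -, hi⟩ := Finset.mem_image.1 this
      exact ⟨i, hi.symm⟩
    · rintro ⟨i, rfl⟩
      exact (g2 i).1
  · intro κ k1 k2 i j hij
    obtain ⟨g1, -⟩ := hlu ⟨lt_of_le_of_lt (le_max_right _ _) k1, lt_of_lt_of_le k2 (min_le_right _ _)⟩
    by_contra h
    exact g1 i j h hij
  · intro i κ k1 k2
    obtain ⟨-, g2⟩ := hlu ⟨lt_of_le_of_lt (le_max_right _ _) k1, lt_of_lt_of_le k2 (min_le_right _ _)⟩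
    exact (g2 i).2

end Pool.Agent.J4H22.AS
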