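import Pool.Agent.J4H22.AS.Base

/-!
# Project AS6: (TIE)
-/

set_option autoImplicit false

namespace Pool.Agent.J4H22.AS

open Polynomial Filter Topology Set Pool.Agent.J4H20.AS

/-- finitely many continuous functions, none of which vanishes identically on an open subinterval, have a common
subinterval without zeros -/
lemma common {ι : Type*} (S : Finset ι) (D : ι → ℝ → ℝ) (c d : ℝ) (hcd : c < d)
    (hc : ∀ p ∈ S, ∀ x : ℝ, c < x → x < d → ContinuousAt (D p) x)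
    (hz : ∀ p ∈ S, ∀ a b : ℝ, c ≤ a → a < b → b ≤ d → ∃ x : ℝ, a < x ∧ x < b ∧ D p x ≠ 0) :
    ∃ a b : ℝ, c ≤ a ∧ a < b ∧ b ≤ d ∧ ∀ p ∈ S, ∀ x : ℝ, a < x → x < b → D p x ≠ 0 := by
  classical
  induction S using Finset.induction_on with
  | empty => exact ⟨c, d, le_rfl, hcd, le_rfl, by simp⟩
  | @insert q T hq ih =>
    obtain ⟨a, b, h1, h2, h3, h4⟩ := ih (fun p hp => hc p (Finset.mem_insert_of_mem hp))
      (fun p hp => hz p (Finset.mem_insert_of_mem hp))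
    obtain ⟨x, x1, x2, x3⟩ := hz q (Finset.mem_insert_self _ _) a b h1 h2 h3
    have hcx := hc q (Finset.mem_insert_self _ _) x (lt_of_le_of_lt h1 x1) (lt_of_lt_of_le x2 h3)
    obtain ⟨l, u, ⟨hl, hu⟩, hlu⟩ := mem_nhds_iff_exists_Ioo_subset.1 (hcx.eventually_ne x3)
    refine ⟨max a l, min b u, le_trans h1 (le_max_left _ _), ?_, le_trans (min_le_left _ _) h3, ?_⟩
    · exact lt_trans (max_lt x1 hl) (lt_min x2 hu)
    · intro p hp y y1 y2
      rcases Finset.mem_insert.1 hp with rfl | hp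
      · exact hlu ⟨lt_of_le_of_lt (le_max_right _ _) y1, lt_of_lt_of_le y2 (min_le_right _ _)⟩
      · exact h4 p hp y (lt_of_le_of_lt (le_max_left _ _) y1) (lt_of_lt_of_le y2 (min_le_left _ _))

/-- the derivative of a critical value -/
lemma crit_der (A : ℝ[X]) (ξ : ℝ → ℝ) (κ : ℝ) (hd : DifferentiableAt ℝ ξ κ)
    (h0 : (derivative (A * (GP - C κ))).eval (ξ κ) = 0) :
    HasDerivAt (fun k => (A * (GP - C k)).eval (ξ k)) (- A.eval (ξ κ)) κ := by
  have e : (fun k => (A * (GP - C k)).eval (ξ k)) = fun k => A.eval (ξ k) * (GP.eval (ξ k) - k) := by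
    funext k; simp
  rw [e]
  have h1 : HasDerivAt (fun k => A.eval (ξ k)) ((derivative A).eval (ξ κ) * deriv ξ κ) κ :=
    (A.hasDerivAt (ξ κ)).comp κ hd.hasDerivAt
  have h2 : HasDerivAt (fun k => GP.eval (ξ k)) ((derivative GP).eval (ξ κ) * deriv ξ κ) κ :=
    (GP.hasDerivAt (ξ κ)).comp κ hd.hasDerivAt
  have h3 := h1.mul (h2.sub (hasDerivAt_id κ))
  rw [der_eval] at h0
  refine h3.congr_deriv ?_
  simp only [id, Pi.sub_apply]
  linear_combination (deriv ξ κ) * h0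

theorem t_TIE : S_BR → S_TIE := by
  classical
  intro hBR A c d H
  obtain ⟨c', d', hc', hck, hkd, hd', m, ξ, hξ, hinj, hdiff⟩ :=
    hBR A c d H ((c + d) / 2) (by linarith [H.lt]) (by linarith [H.lt])
  have hcd' : c' < d' := hck.trans hkd
  have hin : ∀ κ, c' < κ → κ < d' → c < κ ∧ κ < d := fun κ a b =>
    ⟨lt_of_le_of_lt hc' a, lt_of_lt_of_le b hd'⟩
  have hcr : ∀ κ, c' < κ → κ < d' → ∀ i, (derivative (A * (GP - C κ))).eval (ξ i κ) = 0 :=
    fun κ a b i => (hξ κ a b _).2 ⟨i, rfl⟩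
  let D : Fin m × Fin m → ℝ → ℝ := fun p κ =>
    (A * (GP - C κ)).eval (ξ p.1 κ) - (A * (GP - C κ)).eval (ξ p.2 κ)
  have hDd : ∀ p, ∀ κ, c' < κ → κ < d' →
      HasDerivAt (D p) (- A.eval (ξ p.1 κ) - - A.eval (ξ p.2 κ)) κ := by
    intro p κ a b
    exact (crit_der A (ξ p.1) κ (hdiff _ κ a b) (hcr κ a b _)).sub
      (crit_der A (ξ p.2) κ (hdiff _ κ a b) (hcr κ a b _))
  let S : Finset (Fin m × Fin m) := Finset.univ.filter fun p => p.1 ≠ p.2
  by_cases hz : ∀ p ∈ S, ∀ a b : ℝ, c' ≤ a → a < b → b ≤ d' → ∃ x : ℝ, a < x ∧ x < b ∧ D p x ≠ 0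
  · left
    obtain ⟨a, b, h1, h2, h3, h4⟩ := common S D c' d' hcd'
      (fun p _ x x1 x2 => (hDd p x x1 x2).continuousAt) hz
    refine ⟨a, b, le_trans hc' h1, h2, le_trans h3 hd', ?_⟩
    intro κ k1 k2 x y hx hy hxy hF
    have a1 : c' < κ := lt_of_le_of_lt h1 k1
    have a2 : κ < d' := lt_of_lt_of_le k2 h3
    obtain ⟨i, rfl⟩ := (hξ κ a1 a2 x).1 hx
    obtain ⟨j, rfl⟩ := (hξ κ a1 a2 y).1 hy
    have hij : i ≠ j := fun h => hxy (by rw [h])
    exact h4 (i, j) (by simp [S, hij]) κ k1 k2 (sub_eq_zero.2 hF)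
  · right
    push Not at hz
    obtain ⟨⟨i, j⟩, hp, a, b, h1, h2, h3, h4⟩ := hz
    have hij : i ≠ j := by simpa [S] using hp
    have hI : ∀ κ, κ ∈ Ioo a b → c' < κ ∧ κ < d' := fun κ hκ =>
      ⟨lt_of_le_of_lt h1 hκ.1, lt_of_lt_of_le hκ.2 h3⟩
    have hA0 : ∀ κ, κ ∈ Ioo a b → ∀ i, A.eval (ξ i κ) ≠ 0 := by
      intro κ hκ i
      obtain ⟨a1, a2⟩ := hI κ hκ
      obtain ⟨b1, b2⟩ := hin κ a1 a2
      exact (basic H b1 b2).2.2.1 _ (hcr κ a1 a2 i)
    have hAA : ∀ κ, κ ∈ Ioo a b → A.eval (ξ i κ) = A.eval (ξ j κ) := by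
      intro κ hκ
      obtain ⟨a1, a2⟩ := hI κ hκ
      have e1 := hDd (i, j) κ a1 a2
      have e2 : D (i, j) =ᶠ[𝓝 κ] fun _ => (0 : ℝ) := by
        filter_upwards [isOpen_Ioo.mem_nhds hκ] with x hx
        exact h4 x hx.1 hx.2
      have e3 : HasDerivAt (D (i, j)) 0 κ := (hasDerivAt_const κ (0 : ℝ)).congr_of_eventuallyEq e2
      have e4 := e1.unique e3
      simp only at e4
      linarith
    have hGG : ∀ κ, κ ∈ Ioo a b → GP.eval (ξ i κ) = GP.eval (ξ j κ) := by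
      intro κ hκ
      have e1 := h4 κ hκ.1 hκ.2
      have e2 := hAA κ hκ
      have e3 := hA0 κ hκ j
      simp only [D, eval_mul, eval_sub, eval_C] at e1
      rw [e2, ← mul_sub] at e1
      rcases mul_eq_zero.1 e1 with h | h
      · exact absurd h e3
      · linarith
    apply Set.infinite_of_injOn_mapsTo (f := ξ i) (s := Ioo a b) ?_ ?_ (Ioo_infinite h2)
    · intro κ hκ κ' hκ' he
      by_contra hne
      obtain ⟨a1, a2⟩ := hI κ hκ
      obtain ⟨a1', a2'⟩ := hI κ' hκ'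
      obtain ⟨b1, b2⟩ := hin κ a1 a2
      have e1 := hcr κ a1 a2 i
      have e2 := hcr κ' a1' a2' i
      have e3 := derA_ne H b1 b2 e1
      rw [← he] at e2
      rw [der_eval] at e1 e2
      apply e3
      have : (derivative A).eval (ξ i κ) * (κ' - κ) = 0 := by linear_combination e1 - e2
      rcases mul_eq_zero.1 this with h | h
      · exact h
      · exact absurd (by linarith) hne
    · intro κ hκ
      obtain ⟨a1, a2⟩ := hI κ hκ
      refine ⟨ξ j κ, ?_, hGG κ hκ, hAA κ hκ⟩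
      intro h
      exact hij (hinj κ a1 a2 h)

end Pool.Agent.J4H22.AS
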