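import Pool.Agent.J4H20.AS.Stm

/-!
# Project AS6: common lemmas for BR and TIE
-/

set_option autoImplicit false

namespace Pool.Agent.J4H22.AS

open Polynomial Filter Topology Pool.Agent.J4H20.AS

lemma RP_monic (T : Finset ℝ) : (RP T).Monic := by
  unfold RP
  exact monic_prod_of_monic _ _ fun t _ => monic_X_sub_C t

lemma RP_natDegree (T : Finset ℝ) : (RP T).natDegree = T.card := by
  unfold RP
  rw [natDegree_prod_of_monic _ _ fun t _ => monic_X_sub_C t]
  simp

lemma RP_roots (T : Finset ℝ) : (RP T).roots = T.val := by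
  unfold RP
  exact roots_prod_X_sub_C T

lemma GPk_monic (κ : ℝ) : (GP - C κ).Monic := by
  unfold GP
  monicity!

lemma GPk_natDegree (κ : ℝ) : (GP - C κ).natDegree = 6 := by
  unfold GP
  compute_degree!

/-- the critical points of a polynomial with at least two roots, all simple and real -/
lemma crit (U : Finset ℝ) (hU : 2 ≤ U.card) :
    (derivative (RP U)).roots.toFinset.card = U.card - 1 ∧
    derivative (RP U) ≠ 0 ∧
    (∀ x : ℝ, (derivative (RP U)).eval x = 0 → (RP U).eval x ≠ 0) ∧
    (∀ x : ℝ, (derivative (RP U)).eval x = 0 → (derivative (derivative (RP U))).eval x ≠ 0) := by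
  classical
  have h1 := card_roots_toFinset_le_card_roots_derivative_sdiff_roots_succ (RP U)
  have hUf : (RP U).roots.toFinset = U := by
    rw [RP_roots]; exact Finset.val_toFinset U
  rw [hUf] at h1
  have h2 : (derivative (RP U)).natDegree ≤ U.card - 1 := by
    have := natDegree_derivative_le (RP U)
    rwa [RP_natDegree] at this
  have h3 : Multiset.card (derivative (RP U)).roots ≤ U.card - 1 :=
    le_trans (card_roots' _) h2
  have h4 : (derivative (RP U)).roots.toFinset.card ≤ Multiset.card (derivative (RP U)).roots :=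
    Multiset.toFinset_card_le _
  have h5 : ((derivative (RP U)).roots.toFinset \ U).card ≤ (derivative (RP U)).roots.toFinset.card :=
    Finset.card_le_card Finset.sdiff_subset
  have h0 : derivative (RP U) ≠ 0 := by
    intro h
    rw [h] at h1
    simp at h1
    omega
  have hd : (derivative (RP U)).roots.toFinset \ U = (derivative (RP U)).roots.toFinset :=
    Finset.eq_of_subset_of_card_le Finset.sdiff_subset (by omega)
  have hnd : (derivative (RP U)).roots.Nodup := by
    rw [← Multiset.toFinset_card_eq_card_iff_nodup]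
    omega
  refine ⟨by omega, h0, fun x hx hx' => ?_, fun x hx hx' => ?_⟩
  · have hxm : x ∈ (derivative (RP U)).roots.toFinset := by
      rw [Multiset.mem_toFinset, mem_roots h0]; exact hx
    rw [← hd, Finset.mem_sdiff] at hxm
    apply hxm.2
    rw [← hUf, Multiset.mem_toFinset, mem_roots (RP_monic U).ne_zero]
    exact hx'
  · have hxm : x ∈ (derivative (RP U)).roots := by
      rw [mem_roots h0]; exact hx
    have hc : (derivative (RP U)).roots.count x = 1 := Multiset.count_eq_one_of_mem hnd hxm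
    rw [count_roots] at hc
    have h1' : 1 < (derivative (RP U)).rootMultiplicity x :=
      (one_lt_rootMultiplicity_iff_isRoot h0).2 ⟨hx, hx'⟩
    omega

/-- everything about `F_κ = A (G - κ)` -/
lemma basic {A : ℝ[X]} {c d : ℝ} (H : Hyp A c d) {κ : ℝ} (h1 : c < κ) (h2 : κ < d) :
    (derivative (A * (GP - C κ))).roots.toFinset.card = A.natDegree + 5 ∧
    derivative (A * (GP - C κ)) ≠ 0 ∧
    (∀ x : ℝ, (derivative (A * (GP - C κ))).eval x = 0 → A.eval x ≠ 0) ∧
    (∀ x : ℝ, (derivative (A * (GP - C κ))).eval x = 0 →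
      (derivative (derivative (A * (GP - C κ)))).eval x ≠ 0) := by
  obtain ⟨U, hU, e⟩ := H.split κ h1 h2
  have hm : A.Monic := by
    apply Monic.of_mul_monic_right (GPk_monic κ)
    rw [← e]; exact RP_monic U
  have hdeg : U.card = A.natDegree + 6 := by
    rw [← RP_natDegree, e, hm.natDegree_mul (GPk_monic κ), GPk_natDegree]
  have hc := crit U (by omega)
  rw [e] at hc
  refine ⟨by rw [hc.1]; omega, hc.2.1, fun x hx hA => hc.2.2.1 x hx ?_, hc.2.2.2⟩
  rw [eval_mul, hA, zero_mul]

lemma der_eval (A : ℝ[X]) (κ x : ℝ) :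
    (derivative (A * (GP - C κ))).eval x =
      (derivative A).eval x * (GP.eval x - κ) + A.eval x * (derivative GP).eval x := by
  simp [derivative_mul]

lemma derA_ne {A : ℝ[X]} {c d : ℝ} (H : Hyp A c d) {κ : ℝ} (h1 : c < κ) (h2 : κ < d) {x : ℝ}
    (hx : (derivative (A * (GP - C κ))).eval x = 0) : (derivative A).eval x ≠ 0 := by
  intro h
  have hA := (basic H h1 h2).2.2.1 x hx
  have hG := H.coprime x h
  rw [der_eval, h, zero_mul, zero_add] at hx
  rcases mul_eq_zero.1 hx with h' | h'
  · exact hA h'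
  · exact hG h'

lemma cdp (P : ℝ[X]) : ContDiff ℝ 1 fun x : ℝ => P.eval x := by
  have := P.contDiff_aeval (𝕜 := ℝ) 1
  simpa using this

/-- local branches of the critical points -/
lemma loc {A : ℝ[X]} {c d : ℝ} (H : Hyp A c d) {κ₀ : ℝ} (h1 : c < κ₀) (h2 : κ₀ < d) {x₀ : ℝ}
    (hx : (derivative (A * (GP - C κ₀))).eval x₀ = 0) :
    ∃ ξ : ℝ → ℝ, ξ κ₀ = x₀ ∧ ContinuousAt ξ κ₀ ∧
      ∀ᶠ κ in 𝓝 κ₀, (derivative (A * (GP - C κ))).eval (ξ κ) = 0 ∧ DifferentiableAt ℝ ξ κ := by
  have hA' := derA_ne H h1 h2 hx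
  have hF'' := (basic H h1 h2).2.2.2 x₀ hx
  set h : ℝ → ℝ := fun x => GP.eval x + A.eval x * (derivative GP).eval x / (derivative A).eval x with hh
  have hk : ∀ κ x : ℝ, (derivative A).eval x ≠ 0 →
      (derivative (A * (GP - C κ))).eval x = (derivative A).eval x * (h x - κ) := by
    intro κ x hx'
    rw [der_eval, hh]
    field_simp
    ring
  have h0 : h x₀ = κ₀ := by
    rw [hk κ₀ x₀ hA'] at hx
    rcases mul_eq_zero.1 hx with h' | h'
    · exact absurd h' hA'
    · linarith
  have hcd : ContDiffAt ℝ 1 h x₀ := by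
    rw [hh]
    apply ContDiffAt.add
    · exact (cdp GP).contDiffAt
    · apply ContDiffAt.div
      · exact (cdp A).contDiffAt.mul (cdp (derivative GP)).contDiffAt
      · exact (cdp (derivative A)).contDiffAt
      · exact hA'
  have hd1 : DifferentiableAt ℝ h x₀ := hcd.differentiableAt (by norm_num)
  have hev : ∀ᶠ x in 𝓝 x₀, (derivative A).eval x ≠ 0 :=
    (derivative A).continuous.continuousAt.eventually_ne hA'
  have hder : HasDerivAt h (deriv h x₀) x₀ := hd1.hasDerivAt
  have hne : deriv h x₀ ≠ 0 := by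
    intro h'
    apply hF''
    have e1 : (fun x => (derivative (A * (GP - C κ₀))).eval x) =ᶠ[𝓝 x₀]
        fun x => (derivative A).eval x * (h x - κ₀) := by
      filter_upwards [hev] with x hx'
      exact hk κ₀ x hx'
    have e2 : HasDerivAt (fun x => (derivative A).eval x * (h x - κ₀))
        ((derivative (derivative A)).eval x₀ * (h x₀ - κ₀) + (derivative A).eval x₀ * (deriv h x₀)) x₀ :=
      ((derivative A).hasDerivAt x₀).mul (hder.sub_const κ₀)
    have e3 : HasDerivAt (fun x => (derivative (A * (GP - C κ₀))).eval x)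
        ((derivative (derivative (A * (GP - C κ₀)))).eval x₀) x₀ :=
      (derivative (A * (GP - C κ₀))).hasDerivAt x₀
    have e4 := e3.unique (e2.congr_of_eventuallyEq e1)
    rw [e4, h0, h']; ring
  have hs : HasStrictDerivAt h (deriv h x₀) x₀ := hcd.hasStrictDerivAt' hder (by norm_num)
  let f' : ℝ ≃L[ℝ] ℝ := ContinuousLinearEquiv.unitsEquivAut ℝ (Units.mk0 (deriv h x₀) hne)
  have hf' : HasFDerivAt h (f' : ℝ →L[ℝ] ℝ) x₀ := by
    exact hder.hasFDerivAt_equiv hne
  have hsF := hs.hasStrictFDerivAt_equiv hne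
  let ξ : ℝ → ℝ := hcd.localInverse hf' (by norm_num)
  have hξ0 : ξ κ₀ = x₀ := by
    have := hcd.localInverse_apply_image hf' (by norm_num)
    rwa [h0] at this
  have hξc : ContDiffAt ℝ 1 ξ κ₀ := by
    have := hcd.to_localInverse hf' (by norm_num)
    rwa [h0] at this
  have hξr : ∀ᶠ κ in 𝓝 κ₀, h (ξ κ) = κ := by
    have := (hcd.hasStrictFDerivAt' hf' (by norm_num)).eventually_right_inverse
    rwa [h0] at this
  refine ⟨ξ, hξ0, hξc.continuousAt, ?_⟩
  have e1 : ∀ᶠ κ in 𝓝 κ₀, ContDiffAt ℝ 1 ξ κ := hξc.eventually (by norm_num)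
  have e2 : ∀ᶠ κ in 𝓝 κ₀, (derivative A).eval (ξ κ) ≠ 0 := by
    have ht : Tendsto ξ (𝓝 κ₀) (𝓝 x₀) := by
      have := hξc.continuousAt.tendsto
      rwa [hξ0] at this
    exact ht.eventually hev
  filter_upwards [e1, e2, hξr] with κ k1 k2 k3
  refine ⟨?_, k1.differentiableAt (by norm_num)⟩
  rw [hk κ _ k2, k3, sub_self, mul_zero]

end Pool.Agent.J4H22.AS
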